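import Pool.Agent.Helper42.QC.Defs

namespace Pool.Agent.Helper42.QC

open Pool.Agent.Helper42.QD

/-- The image of one span is the other. -/
theorem scl_map {D : Type} [DivisionRing D] {V : Type} [AddCommGroup V] [Module ℂ V]
    (rho : Representation ℂ (G2 D) V) (f : D → ℂ) {z : D} (hz : z ≠ 0) :
    (tsp rho fun x => f (z * x)).map (rho (dg z 1)) = tsp rho f := by
  unfold tsp
  rw [Submodule.map_span]
  apply le_antisymm
  · rw [Submodule.span_le]
    rintro _ ⟨w, ⟨x, v, rfl⟩, rfl⟩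
    apply Submodule.subset_span
    refine ⟨z * x, rho (dg z 1) v, ?_⟩
    rw [map_sub, map_smul]
    have h := dg_nn hz (one_ne_zero (α := D)) x
    rw [inv_one, mul_one] at h
    have h2 : rho (dg z 1) (rho (nn x) v) = rho (nn (z * x)) (rho (dg z 1) v) := by
      rw [← Module.End.mul_apply, ← Module.End.mul_apply, ← map_mul, ← map_mul, h]
    rw [h2]
  · rw [Submodule.span_le]
    rintro _ ⟨x, v, rfl⟩
    apply Submodule.subset_span
    refine ⟨rho (nn (z⁻¹ * x)) (rho (dg z 1)⁻¹ v) - f (z * (z⁻¹ * x)) • rho (dg z 1)⁻¹ v,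
      ⟨z⁻¹ * x, rho (dg z 1)⁻¹ v, rfl⟩, ?_⟩
    rw [map_sub, map_smul]
    have h := dg_nn hz (one_ne_zero (α := D)) (z⁻¹ * x)
    rw [inv_one, mul_one, mul_inv_cancel_left₀ hz] at h
    have h3 : rho (dg z 1) (rho (dg z 1)⁻¹ v) = v := by
      rw [← Module.End.mul_apply, ← map_mul, mul_inv_cancel, map_one, Module.End.one_apply]
    have h2 : rho (dg z 1) (rho (nn (z⁻¹ * x)) (rho (dg z 1)⁻¹ v)) = rho (nn x) v := by
      rw [← Module.End.mul_apply, ← map_mul, h, map_mul, Module.End.mul_apply, h3]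
    rw [h2, h3, mul_inv_cancel_left₀ hz]

theorem st_SCL : ST_SCL := by
  intro D _ V _ _ rho f z hz
  exact LinearEquiv.finrank_eq (Submodule.Quotient.equiv _ _
    (LinearEquiv.ofLinear (rho (dg z 1)) (rho (dg z 1)⁻¹)
      (by rw [← Module.End.mul_eq_comp, ← map_mul, mul_inv_cancel, map_one]; rfl)
      (by rw [← Module.End.mul_eq_comp, ← map_mul, inv_mul_cancel, map_one]; rfl))
    (scl_map rho f hz))

end Pool.Agent.Helper42.QC
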